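import Pool.Agent.H94.RG7

set_option autoImplicit false

open MeasureTheory Set Filter Topology Polynomial

namespace Pool.Agent.Results.MP_25eb51_an.NotJulia

/-- Minus the logarithmic energy: the double integral of `log |x - y|`. -/
noncomputable def negEnergy (ν : Measure ℝ) : ℝ := ∫ p : ℝ × ℝ, Real.log |p.1 - p.2| ∂(ν.prod ν)

/-- `ν` is a probability measure on `K` of finite logarithmic energy. -/
def FiniteEnergy (K : Set ℝ) (ν : Measure ℝ) : Prop :=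
  IsProbabilityMeasure ν ∧ ν Kᶜ = 0 ∧ (∀ x, ν {x} = 0) ∧
    Integrable (fun p : ℝ × ℝ => Real.log |p.1 - p.2|) (ν.prod ν)

/-- `ν` is an equilibrium measure of `K`: finite energy, and least energy. -/
def IsEquilibrium (K : Set ℝ) (ν : Measure ℝ) : Prop :=
  FiniteEnergy K ν ∧ ∀ ρ, FiniteEnergy K ρ → negEnergy ρ ≤ negEnergy ν

/-- Every point of `K` carries a barrier for the complement of `K` in the plane. -/
def Regular (K : Set ℝ) : Prop :=
  ∀ x ∈ K, ∃ U : Set ℂ, IsOpen U ∧ (x : ℂ) ∈ U ∧ ∃ b : ℂ → ℝ,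
    InnerProductSpace.HarmonicOnNhd b (U \ Complex.ofReal '' K) ∧
    (∀ z ∈ U \ Complex.ofReal '' K, b z < 0) ∧
    Tendsto b (𝓝[U \ Complex.ofReal '' K] (x : ℂ)) (𝓝 0)

/-- The compositions `f n ∘ ... ∘ f 0`. -/
noncomputable def comp {R : Type} [CommRing R] (f : ℕ → R[X]) : ℕ → R → R
  | 0 => fun z => (f 0).eval z
  | n + 1 => fun z => (f (n + 1)).eval (comp f n z)

/-- Stereographic projection of the plane to a sphere. -/
noncomputable def sph (z : ℂ) : ℂ × ℝ := (z / ((1 + ‖z‖ ^ 2 : ℝ) : ℂ), 1 / (1 + ‖z‖ ^ 2))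

/-- Normal family on `U`, for the spherical metric. -/
def Normal (F : ℕ → ℂ → ℂ) (U : Set ℂ) : Prop :=
  ∀ φ : ℕ → ℕ, ∃ ψ : ℕ → ℕ, StrictMono ψ ∧ ∃ g : ℂ → ℂ × ℝ,
    TendstoLocallyUniformlyOn (fun n z => sph (F (φ (ψ n)) z)) g atTop U

/-- The finite part of the Julia set of a sequence of polynomials. -/
def julia (f : ℕ → ℂ[X]) : Set ℂ := {z | ¬ ∃ U, IsOpen U ∧ z ∈ U ∧ Normal (comp f) U}

/-- Admissible real polynomials. -/
def Admissible (T : ℝ[X]) : Prop :=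
  2 ≤ T.natDegree ∧ T.roots.card = T.natDegree ∧ T.roots.Nodup ∧
    ∀ y, T.derivative.eval y = 0 → 1 ≤ |T.eval y|

theorem result : ∃ K : Set ℝ, IsCompact K ∧ Regular K ∧
    (∃ μ, IsEquilibrium K μ ∧ ∀ c ∉ K, ∃ q : ℚ, μ.real (Icc (sInf K) c) = q) ∧
    (∀ f : ℕ → ℂ[X], (∀ n, 2 ≤ (f n).natDegree) → julia f ≠ Complex.ofReal '' K) ∧
    (∀ f : ℕ → ℝ[X], (∀ n, Admissible (f n)) → K ≠ ⋂ n, comp f n ⁻¹' Icc (-1) 1) ∧
    (∀ f : ℕ → ℂ[X], (∀ n, 2 ≤ (f n).natDegree) →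
      Complex.ofReal '' K ≠ ⋂ n, comp f n ⁻¹' (Complex.ofReal '' Icc (-1) 1)) := by
  obtain ⟨K, μ, α, h1, h2, h3, ⟨b, b1, b2, b3⟩, h5, h6, h7, h8⟩ := Pool.Agent.H94.RG.main
  have ns := Pool.Agent.H94.RG.nonsat K α h2 h6 h7 h8
  have fac : ∀ {R : Type} [CommRing R] (f : ℕ → R[X]) (x y : R), (f 0).eval x = (f 0).eval y →
      ∀ n, comp f n x = comp f n y := fun f x y h n => by
    induction n with
    | zero => exact h
    | succ n ih => simp only [comp, ih]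
  refine ⟨K, h1, fun x hx => ⟨_, Metric.isOpen_ball, (b3 x hx).1, b, fun z hz => b1 z hz.2, b2,
    ?_⟩, ⟨μ, h3, by rwa [h2.csInf_eq]⟩, fun f hf e => ns (f 0) (hf 0) fun x hx z hz => ?_,
    fun f hf e => ns ((f 0).map (algebraMap ℝ ℂ)) (by rw [natDegree_map]; exact (hf 0).1)
      fun x hx z hz => ?_, fun f hf e => ns (f 0) (hf 0) fun x hx z hz => ?_⟩
  · have := (b3 x hx).2.1.tendsto
    rw [(b3 x hx).2.2] at this
    exact this.mono_left nhdsWithin_le_nhds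
  · by_contra hn
    have q1 : (x : ℂ) ∈ julia f := e ▸ ⟨x, hx, rfl⟩
    have q2 : z ∉ julia f := e ▸ fun ⟨y, y1, y2⟩ => hn ⟨y, y1, y2.symm⟩
    obtain ⟨U, u1, u2, u3⟩ := not_not.1 q2
    obtain ⟨r, r0, hr⟩ := Metric.nhds_basis_closedBall.mem_iff.1 (u1.mem_nhds u2)
    have op := ((f 0).isOpenQuotientMap_eval (by have := hf 0; omega)).isOpenMap _
      (Metric.isOpen_ball (x := z) (ε := r))
    refine q1 ⟨_, op.preimage (f 0).continuous, ⟨z, Metric.mem_ball_self r0, hz⟩, fun φ => ?_⟩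
    obtain ⟨ψ, p1, g, p2⟩ := u3 φ
    have : ∀ w : ℂ, ∃ v, w ∈ (fun t => (f 0).eval t) ⁻¹' ((fun t => (f 0).eval t) '' Metric.ball z r) →
        v ∈ Metric.ball z r ∧ (f 0).eval v = (f 0).eval w := fun w => by
      by_cases hw : w ∈ (fun t => (f 0).eval t) ⁻¹' ((fun t => (f 0).eval t) '' Metric.ball z r)
      · obtain ⟨v, hv⟩ := hw
        exact ⟨v, fun _ => hv⟩
      · exact ⟨0, fun h => absurd h hw⟩
    choose s hs using this
    have p3 := ((tendstoLocallyUniformlyOn_iff_tendstoUniformlyOn_of_compact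
      (isCompact_closedBall z r)).1 (p2.mono hr)).comp s
    refine ⟨ψ, p1, g ∘ s, TendstoUniformlyOn.tendstoLocallyUniformlyOn
      ((p3.mono fun w hw => Metric.ball_subset_closedBall (hs w hw).1).congr
        (Eventually.of_forall fun n w hw => ?_))⟩
    simp only [Function.comp, fac f _ _ (hs w hw).2]
  · rw [eval_map_algebraMap, eval_map_algebraMap, Pool.Agent.H94.RG.aeval_real] at hz
    have q := mem_iInter.1 (e ▸ hx : x ∈ ⋂ n, comp f n ⁻¹' Icc (-1) 1)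
    have := Pool.Agent.H94.RG.realroot (f 0) (by have := (hf 0).1; omega) (hf 0).2.1
      (hf 0).2.2.2 z _ (q 0) hz
    obtain ⟨y, rfl⟩ : ∃ y : ℝ, z = y := ⟨z.re, Complex.ext (by simp) (by simp [this])⟩
    rw [Pool.Agent.H94.RG.aeval_real, Complex.ofReal_inj] at hz
    refine ⟨y, ?_, rfl⟩
    rw [e]
    exact mem_iInter.2 fun n => by rw [mem_preimage, fac f _ _ hz]; exact q n
  · have q := mem_iInter.1 (e ▸ ⟨x, hx, rfl⟩ :
      (x : ℂ) ∈ ⋂ n, comp f n ⁻¹' (Complex.ofReal '' Icc (-1) 1))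
    have : z ∈ Complex.ofReal '' K := by
      rw [e]
      exact mem_iInter.2 fun n => by rw [mem_preimage, fac f _ _ hz]; exact q n
    obtain ⟨y, y1, y2⟩ := this
    exact ⟨y, y1, y2.symm⟩

end Pool.Agent.Results.MP_25eb51_an.NotJulia
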